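import Mathlib

/-! Recursively enumerable sets reduce to the halting problem. -/

set_option autoImplicit false

namespace Pool.Agent.Y617.MO

open Nat.Partrec

/-- For every recursively enumerable set `S` there is a computable sequence of programs such that the
`n`-th one stops on input `0` if and only if `n` is in `S`. -/
theorem exists_codes {S : ℕ → Prop} (hS : REPred S) :
    ∃ c : ℕ → Code, Computable c ∧ ∀ n, (Code.eval (c n) 0).Dom ↔ S n := by
  have h1 : Partrec fun m : ℕ => (Part.assert (S m.unpair.1) fun _ => Part.some 0 : Part ℕ) := by
    have h2 : Partrec fun m : ℕ => (Part.assert (S m.unpair.1) fun _ => Part.some () : Part Unit) :=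
      Partrec.comp (f := fun n : ℕ => (Part.assert (S n) fun _ => Part.some () : Part Unit)) hS
        (Computable.fst.comp Computable.unpair)
    refine (h2.map (g := fun _ _ => (0 : ℕ)) (Computable.const 0).to₂).of_eq fun m => ?_
    ext x
    simp [eq_comm]
  obtain ⟨c, hc⟩ := Code.exists_code.1 (Partrec.nat_iff.1 h1)
  refine ⟨fun n => Code.curry c n,
    (Code.primrec₂_curry.comp (Primrec.const c) Primrec.id).to_comp, fun n => ?_⟩
  rw [Code.eval_curry, hc]
  constructor
  · rintro ⟨h, _⟩
    simpa using h
  · intro h
    exact ⟨by simpa using h, trivial⟩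

end Pool.Agent.Y617.MO
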